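import Mathlib
import Pool.Agent.K9h23.Big.Alg3

/-!
MP_ca0fc2_an: the corona theorem on the unit ball of `ℂ^n` for the closed algebras generated by the
ball algebra and all bounded holomorphic functions with homogeneous expansion in sparse bands.

The bands are `l_i ≤ k ≤ u_i`, `u_i ≤ K l_i`, with `∑ √(u_i / l_{i+1}) < ∞`. (More generally, some of the
blocks may have any width if the functions are small there, `|∑_{l_i ≤ k ≤ u_i} P_k| ≤ M s_i` with
`s_i → 0`; then the series is weighted with the `s_i`.) The functions in these bands do not form an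
algebra; sums, products and uniform limits are allowed here. Near a boundary point `p` only finitely
many such functions `q_1, …, q_m` are needed. If a character of `H^∞(B)` in the fibre over `p` had a
value `(μ_1, …, μ_m)` on them which is not in the cluster set of `(q_1, …, q_m)` at `p`, then
`q_1 - μ_1, …, q_m - μ_m` together with the polynomial `1 - Φ(⟨z, p⟩)` (small only near `p`; `Φ` is a
mean of powers) would be data without common approximate zeros, with expansion in the same blocks, and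
the corona theorem for such expansions (`Big.Rec`, `Big.Loc`, see `LacunaryBands`) gives a
contradiction.

* `Big.Pw`, `Big.Trl`, `Big.Stg`, `Big.Rec`, `Big.Dm`, `Big.Loc`: corona theorem for expansions in sparse
  blocks; `Big.Alg1`: `q - μ` near a boundary point; `Big.Alg2`: characters, the algebra generated;
  `Big.Alg3`: the closed algebra.
-/

set_option autoImplicit false

open MvPolynomial Metric Filter Topology

namespace Pool.Agent.Results.MP_ca0fc2_an.BandAlgebras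

abbrev V (n : ℕ) := EuclideanSpace ℂ (Fin n)

/-- bounded holomorphic functions on the unit ball -/
def BH {n : ℕ} (f : V n → ℂ) : Prop :=
  DifferentiableOn ℂ f (ball 0 1) ∧ ∃ M : ℝ, ∀ z ∈ ball (0 : V n) 1, ‖f z‖ ≤ M

/-- sparse blocks `l_i ≤ k ≤ u_i` of degrees: those with index in `W` are bands, `u_i ≤ K l_i`, with
`s_i = 1`, on the others `s_i → 0`; `√(u_i / l_{i+1}) → 0` and `∑ s_{i+1} √(u_i / l_{i+1}) < ∞` -/
structure Sparse (K : ℕ) (W : Set ℕ) (s : ℕ → ℝ) (l u : ℕ → ℕ) : Prop where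
  order : ∀ i, l i ≤ u i ∧ u i < l (i + 1)
  nonneg : ∀ i, 0 ≤ s i
  bands : ∀ i ∈ W, s i = 1 ∧ u i ≤ K * l i
  small : ∀ ε : ℝ, 0 < ε → ∀ᶠ i in atTop,
    Real.sqrt (u i) / Real.sqrt (l (i + 1)) ≤ ε ∧ (i ∉ W → s i ≤ ε)
  sum : Summable fun i => s (i + 1) * (Real.sqrt (u i) / Real.sqrt (l (i + 1)))

/-- `f` is bounded and holomorphic on the unit ball with homogeneous expansion `f = ∑ P_k`; `P_k = 0`
if `k > d` is not in a block, for some `d`; and the sum of the `P_k` over a block with `i ∉ W` is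
bounded by `M s_i`, for some `M` -/
def InBlocks {n : ℕ} (W : Set ℕ) (s : ℕ → ℝ) (l u : ℕ → ℕ) (f : V n → ℂ) : Prop :=
  BH f ∧ ∃ (d : ℕ) (M : ℝ) (P : ℕ → MvPolynomial (Fin n) ℂ), (∀ k, (P k).IsHomogeneous k) ∧
    (∀ k, d < k → (∀ i, ¬ (l i ≤ k ∧ k ≤ u i)) → P k = 0) ∧
    (∀ z ∈ ball (0 : V n) 1, HasSum (fun k => eval z.ofLp (P k)) (f z)) ∧
    ∀ i, i ∉ W → ∀ z ∈ ball (0 : V n) 1,
      ‖∑ k ∈ Finset.Icc (l i) (u i), eval z.ofLp (P k)‖ ≤ M * s i

/-- the ball algebra -/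
def BallAlgebra (n : ℕ) : Set (V n → ℂ) :=
  {a | ContinuousOn a (closedBall 0 1) ∧ DifferentiableOn ℂ a (ball 0 1)}

/-- **Corona theorem for the closed algebras generated by functions in sparse bands.** -/
theorem result (n N : ℕ) (f : Fin N → V n → ℂ) :
    ((∀ j, BH (f j)) → (∀ z ∈ ball (0 : V n) 1, ∃ j, f j z ≠ 0) →
      (∀ p : V n, ‖p‖ = 1 → ∃ (T : Finset (Fin N)) (c : ℝ), 0 < c ∧
        (∀ᶠ z in 𝓝[ball 0 1] p, c ≤ ∑ j ∈ T, ‖f j z‖) ∧
        ∀ ε : ℝ, 0 < ε → ∃ (K : ℕ) (W : Set ℕ) (s : ℕ → ℝ) (l u : ℕ → ℕ), Sparse K W s l u ∧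
          ∀ j ∈ T, ∃ v ∈ Algebra.adjoin ℂ {q : V n → ℂ | InBlocks W s l u q},
            ∀ᶠ z in 𝓝[ball 0 1] p, ‖f j z - v z‖ ≤ ε) →
      ∃ g : Fin N → V n → ℂ, (∀ j, BH (g j)) ∧
        ∀ z ∈ ball (0 : V n) 1, ∑ j, f j z * g j z = 1) ∧
    (∀ (K : ℕ) (W : Set ℕ) (s : ℕ → ℝ) (l u : ℕ → ℕ), Sparse K W s l u → ∀ δ : ℝ, 0 < δ →
      (∀ j, DifferentiableOn ℂ (f j) (ball 0 1)) →
      (∀ j, ∀ ε : ℝ, 0 < ε →
        ∃ v ∈ Algebra.adjoin ℂ (BallAlgebra n ∪ {q : V n → ℂ | InBlocks W s l u q}),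
          ∀ z ∈ ball (0 : V n) 1, ‖f j z - v z‖ ≤ ε) →
      (∀ z ∈ ball (0 : V n) 1, δ ≤ ∑ j, ‖f j z‖) →
      ∃ g : Fin N → V n → ℂ, (∀ j, BH (g j)) ∧
        ∀ z ∈ ball (0 : V n) 1, ∑ j, f j z * g j z = 1) := by
  refine ⟨fun hf h0 hloc => Pool.Agent.K9h23.Big.criterion2 f hf h0 fun p hp => ?_,
    fun K W s l u S δ hδ hfd hf hlow => Pool.Agent.K9h23.Big.closed2
      ⟨S.order, S.nonneg, S.bands, S.small, S.sum⟩ f δ hfd hf hδ hlow⟩
  obtain ⟨T, c, hc, h1, h2⟩ := hloc p hp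
  refine ⟨T, c, hc, h1, fun ε hε => ?_⟩
  obtain ⟨K, W, s, l, u, S, h3⟩ := h2 ε hε
  exact ⟨K, W, s, l, u, ⟨S.order, S.nonneg, S.bands, S.small, S.sum⟩, h3⟩

end Pool.Agent.Results.MP_ca0fc2_an.BandAlgebras
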