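import Mathlib
import Pool.Agent.K9h23.Big.Gp
import Pool.Agent.K9h23.Mix.Fn5

/-!
MP_ca0fc2_an: the corona theorem on the unit ball of `ℂ^n` for data whose homogeneous expansion is
supported in sparse bands.

The data are `f = ∑ P_k` (`P_k` homogeneous of degree `k`, vector valued), cut into the part of degree
`≤ d` and the blocks `Q_i = ∑_{l_i ≤ k ≤ u_i} P_k`. The blocks with index in `W` are bands
`u_i ≤ K l_i`; nothing else is assumed on them. The other blocks are small and may have any width. The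
gap condition is `∑ √(u_{i-1} / l_i) ≤ c` (weighted with the size of the blocks outside `W`), where
`c` does not depend on `d`; so for a single `f` the convergence of the series is enough. No
gap is needed before at most `K` of the bands. If all blocks are small and `d = 0`, the bound is
explicit and does not depend on `n` and `N`.

* `Bnd.Ker`, `Bnd.Gr`, `Bnd.Op`, `Bnd.Est`: operators `T` onto polynomials of degrees in `[M, M']` with
  kernels concentrated on the scale `1 / √M`, reproducing the polynomials of the middle degrees;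
* `Bnd.Sl`: solutions on slices by the corona theorem of the disc; `Bnd.Stp`, `Mix.Lrg`: the step
  across a large band (iteration over dyadic scales);
* `Big.Pw`, `Big.Trl`, `Big.Stg`: the step `(F, h) → (F + q, h')` across a large band without loss,
  `h' = E h + (1 - (1 + q h) E) (v - M v)` with `v = conj F / |F|^2`, `E = exp (A q conj F)` and the
  matrix `M` of the previous step: `|h'|^2 exp (-A |F + q|^2)` is at most
  `(1 + C √(u_{i-1} / l_i)) |h|^2 exp (-A |F|^2)` if `|h|` is large;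
* `Lac.Stp`, `Mix.Qua`, `Mix.Sml`: the step across a small block;
* `Big.Rec`, `Big.Dm`: the recursion;
* `Loc.Fej`, `Loc.Cst`, `Big.Loc`: near a boundary point `p` the part of degree `≤ d` is replaced by
  its value at `p`, with the new component `1 - Φ(⟨z, p⟩)`, `Φ` a mean of powers, which is small only
  near `p`; so `c` does not depend on `d`;
* `Loc.Unif`: from local to global solutions; `Big.Fn`: the case `d = 0`; `Big.Gp`: missing gaps.
-/

set_option autoImplicit false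

open MvPolynomial

namespace Pool.Agent.Results.MP_ca0fc2_an.LacunaryBands

/-- the unit ball of `ℂ^n` -/
def Ball (n : ℕ) : Set (Fin n → ℂ) := {z | ∑ i, ‖z i‖ ^ 2 < 1}

/-- `δ ≤ ∑ |f_j|² ≤ 1` on the unit ball -/
def Data {n N : ℕ} (δ : ℝ) (f : Fin N → (Fin n → ℂ) → ℂ) : Prop :=
  ∀ z ∈ Ball n, δ ≤ ∑ j, ‖f j z‖ ^ 2 ∧ ∑ j, ‖f j z‖ ^ 2 ≤ 1

/-- there are holomorphic functions `g_j` on the unit ball with `∑ f_j g_j = 1` and
`∑ |g_j|² ≤ C` -/
def Solvable {n N : ℕ} (C : ℝ) (f : Fin N → (Fin n → ℂ) → ℂ) : Prop :=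
  ∃ g : Fin N → (Fin n → ℂ) → ℂ, (∀ j, DifferentiableOn ℂ (g j) (Ball n)) ∧
    (∀ z ∈ Ball n, ∑ j, ‖g j z‖ ^ 2 ≤ C) ∧ ∀ z ∈ Ball n, ∑ j, f j z * g j z = 1

/-- `f = ∑ P_k` is the homogeneous expansion, `P_k = 0` if `k > d` and `k` is in none of the blocks
`l_i ≤ k ≤ u_i`, which are disjoint and increasing -/
structure Expansion {n N : ℕ} (d : ℕ) (l u : ℕ → ℕ) (P : ℕ → Fin N → MvPolynomial (Fin n) ℂ)
    (f : Fin N → (Fin n → ℂ) → ℂ) : Prop where
  blocks : d < l 0 ∧ ∀ i, l i ≤ u i ∧ u i < l (i + 1)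
  homogeneous : ∀ k j, (P k j).IsHomogeneous k
  gaps : ∀ k, d < k → (∀ i, ¬ (l i ≤ k ∧ k ≤ u i)) → P k = 0
  sum : ∀ j, ∀ z ∈ Ball n, HasSum (fun k => eval z (P k j)) (f j z)

/-- `|∑_{l ≤ k ≤ u} P_k(z)|`, the size of a block at the point `z` -/
noncomputable def Size {n N : ℕ} (l u : ℕ) (P : ℕ → Fin N → MvPolynomial (Fin n) ℂ)
    (z : Fin n → ℂ) : ℝ := Real.sqrt (∑ j, ‖∑ k ∈ Finset.Icc l u, eval z (P k j)‖ ^ 2)

/-- `√(d / l_0)` for `i = 0`, `√(u_{i-1} / l_i)` for `i ≥ 1` -/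
noncomputable def Ratio (d : ℕ) (l u : ℕ → ℕ) (i : ℕ) : ℝ :=
  Real.sqrt (if i = 0 then (d : ℝ) else (u (i - 1) : ℝ)) / Real.sqrt (l i)

/-- **Corona theorem for homogeneous expansions in sparse bands.** -/
theorem result (δ : ℝ) (hδ : 0 < δ) (n N K : ℕ) : ∃ c : ℝ, 0 < c ∧ ∀ d : ℕ, ∃ C : ℝ,
    ∀ (l u : ℕ → ℕ) (s : ℕ → ℝ) (W G : Set ℕ) (P : ℕ → Fin N → MvPolynomial (Fin n) ℂ)
      (f : Fin N → (Fin n → ℂ) → ℂ),
    Expansion d l u P f → Data δ f →
    (∀ i, i ∉ W → s i ≤ c ∧ ∀ z ∈ Ball n, Size (l i) (u i) P z ≤ s i) →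
    (∀ i ∈ W, s i = 1 ∧ u i ≤ K * l i) →
    G.encard ≤ K → (∀ i ∈ G, i ∈ W ∧ i - 1 ∈ W) →
    (∀ i, i ∉ G → Ratio d l u i ≤ c) →
    (∀ T : Finset ℕ, (∀ i ∈ T, i ∉ G) → ∑ i ∈ T, s i * Ratio d l u i ≤ c) →
    Solvable C f ∧ (d = 0 → W = ∅ → Solvable (Real.exp (300 / δ)) f) := by
  have h0B : (0 : Fin n → ℂ) ∈ Ball n := by
    change ∑ i, ‖(0 : Fin n → ℂ) i‖ ^ 2 < 1
    simp
  rcases lt_or_ge 1 δ with hδ1 | hδ1
  · refine ⟨1, one_pos, fun _ => ⟨0, fun l u s W G P f _ hD => ?_⟩⟩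
    exfalso
    have h1 := hD 0 h0B
    linarith [h1.1, h1.2]
  set δ' : ℝ := Real.sqrt δ with hδ'
  have hδ'0 : 0 < δ' := Real.sqrt_pos.2 hδ
  have hδ'1 : δ' ≤ 1 := Real.sqrt_le_iff.2 ⟨zero_le_one, by rw [one_pow]; exact hδ1⟩
  have hδ'2 : δ' ^ 2 = δ := Real.sq_sqrt hδ.le
  obtain ⟨c1, hc1, H⟩ := Pool.Agent.K9h23.Big.pgap n N hδ'0 hδ'1 K K
  obtain ⟨c2, hc2, _, H2⟩ := Pool.Agent.K9h23.Mix.pfinal n N 0 K hδ'0 hδ'1
  obtain ⟨c, hc⟩ : ∃ c, c = min c1 (min c2 (δ ^ 2 / 10 ^ 6)) := ⟨_, rfl⟩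
  have hc0 : 0 < c := by rw [hc]; exact lt_min hc1 (lt_min hc2 (by positivity))
  have hca : c ≤ c1 := by rw [hc]; exact min_le_left _ _
  have hcb : c ≤ c2 := by rw [hc]; exact (min_le_right _ _).trans (min_le_left _ _)
  have hcc : c ≤ δ ^ 2 / 10 ^ 6 := by rw [hc]; exact (min_le_right _ _).trans (min_le_right _ _)
  have hδ2 : δ ^ 2 / 10 ^ 6 ≤ 1 := by
    rw [div_le_one (by norm_num)]
    nlinarith
  refine ⟨c, hc0, fun d => ?_⟩
  obtain ⟨C, H⟩ := H d
  refine ⟨C, fun l u s W G P f hE hD hsm hlg hG hGW hsup hgap => ?_⟩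
  have hS : ∀ (i : ℕ) (z : Pool.Agent.K9h23.Hom.E n),
      Pool.Agent.K9h23.Lac.nn (Pool.Agent.K9h23.Mix.Qu l u (Pool.Agent.K9h23.Bnd.HH P) i z) =
        Size (l i) (u i) P z.ofLp := fun i z => rfl
  have hs0 : ∀ i, 0 ≤ s i := by
    intro i
    by_cases hi : i ∈ W
    · rw [(hlg i hi).1]; exact zero_le_one
    · exact (Real.sqrt_nonneg _).trans ((hsm i hi).2 0 h0B)
  have hPD : Pool.Agent.K9h23.Mix.PD δ' d l u P f :=
    ⟨hE.blocks.1, fun i => (hE.blocks.2 i).1, fun i => (hE.blocks.2 i).2, hE.homogeneous,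
      fun k hk hkl j => by rw [hE.gaps k hk hkl]; rfl, fun z hz j => hE.sum j z hz,
      fun z hz => ⟨hδ'2.le.trans (hD z hz).1, (hD z hz).2⟩⟩
  have hHC : Pool.Agent.K9h23.Big.HC c1 K W s l u (Pool.Agent.K9h23.Bnd.HH P) := by
    refine ⟨hs0, fun i => ?_, fun i hi => (hlg i hi).1, fun i hi z hz => ?_,
      fun i hi => (hlg i hi).2, fun i hi => (hsm i hi).1.trans hca⟩
    · by_cases hi : i ∈ W
      · rw [(hlg i hi).1]
      · exact (hsm i hi).1.trans (hcc.trans hδ2)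
    · rw [hS]
      exact (hsm i hi).2 _ (Pool.Agent.K9h23.Bnd.ball_ofLp hz)
  have hR : ∀ i, Pool.Agent.K9h23.Mix.et (Pool.Agent.K9h23.Mix.Du d u) l i = Ratio d l u i := by
    intro i
    unfold Pool.Agent.K9h23.Mix.et Ratio
    cases i with
    | zero => rw [if_pos rfl]; rfl
    | succ i => rw [if_neg (Nat.succ_ne_zero i)]; rfl
  refine ⟨H l u W G s P f hPD hHC hG hGW
    (fun i hi => by rw [hR]; exact (hsup i hi).trans hca) (fun T hT => by
      simp_rw [hR]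
      exact (hgap T hT).trans hca), fun hd hW => ?_⟩
  subst hd
  subst hW
  have hHB : Pool.Agent.K9h23.Mix.HB δ' K ∅ ∅ ∅ s l u (Pool.Agent.K9h23.Bnd.HH P) := by
    refine ⟨hs0, hHC.s1, hHC.sW, hHC.sQ, fun i hi z hz => ?_, hHC.lg,
      fun i hi => absurd hi (Set.notMem_empty i), fun z hz T hT => ?_, by simp⟩
    · rw [← Pool.Agent.K9h23.Lac.nn_sq]
      exact Pool.Agent.K9h23.Mix.expl_small hδ hδ1 (Pool.Agent.K9h23.Lac.nn_nonneg _)
        (((hsm i hi).2 _ (Pool.Agent.K9h23.Bnd.ball_ofLp hz)).trans ((hsm i hi).1.trans hcc))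
    · have hT0 : T = ∅ := Finset.coe_eq_empty.1 (Set.subset_empty_iff.1 hT)
      subst hT0
      simp
  obtain ⟨-, h2⟩ := H2 l u ∅ ∅ ∅ G s P f hPD hHB hG hGW
    (fun i hi => by rw [hR]; exact (hsup i hi).trans hcb) (fun T hT => by
      simp_rw [hR]
      exact (hgap T hT).trans hcb)
  exact (h2 rfl rfl).mono (Pool.Agent.K9h23.Mix.expl_bound hδ hδ1)

end Pool.Agent.Results.MP_ca0fc2_an.LacunaryBands
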