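import Mathlib
import Pool.Agent.K9h23.Din.Alg3

/-!
MP_ca0fc2_an: the corona theorem on the unit ball of `ℂ^n` for bounded holomorphic functions with
square summable dyadic pieces, and for the closed algebra generated by them and the ball algebra.

`SqSum f` says that `f - f(0) = ∑ q_k`, `q_k` a polynomial with terms of degrees in `[2^k, K 2^k]` and
`∑ sup_B |q_k|^2 < ∞` (the functions of the Besov class `B^0_{∞,2}`, i.e. `∫ ω(t)^2 dt/t < ∞` where
`ω(t)` is the supremum of `(1 - |z|)|∇f(z)|` over `|z| ≤ 1 - t`). There are no gaps. These functions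
need not extend continuously to the boundary.

Proof. Solutions of `F_k·H_k = 1` for the partial sums `F_k` are corrected step by step. The correction
is second order in the component which would increase `|H_k|`, and the error of the holomorphic
replacement is `s_k L_k / √(2^k)`, where `L_k` is the Lipschitz constant of `F_k, H_k` in the
nonisotropic metric. The point is the bound `L_{k+1} ≤ (1 + C s_k) L_k + C s_k √(2^k)`
(`Din.Sml`), which makes the sum of the errors `O(∑ s_k^2)` (`Din.Rec`). All constants depend only on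
the lower bound of the data near a boundary point, so that one can start at a large index, with the
partial sum replaced by its value at the boundary point (`Din.Par`, `Din.Loc`). Characters of `H^∞(B)`
(`Din.Alg2`, `Din.Alg3`) give the algebras.
-/

set_option autoImplicit false

open MvPolynomial Metric Filter Topology

namespace Pool.Agent.Results.MP_ca0fc2_an.SquareSummable

abbrev V (n : ℕ) := EuclideanSpace ℂ (Fin n)

/-- bounded holomorphic functions on the unit ball -/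
def BH {n : ℕ} (f : V n → ℂ) : Prop :=
  DifferentiableOn ℂ f (ball 0 1) ∧ ∃ M : ℝ, ∀ z ∈ ball (0 : V n) 1, ‖f z‖ ≤ M

/-- `f` is bounded and holomorphic on the unit ball, and `f - f(0)` is the sum of polynomials `q_k`
with homogeneous terms of degrees in `[2^k, K 2^k]` only and `|q_k| ≤ s_k` on the ball, where
`∑ s_k ^ 2 < ∞` -/
def SqSum {n : ℕ} (f : V n → ℂ) : Prop :=
  BH f ∧ ∃ (K : ℕ) (s : ℕ → ℝ) (P : ℕ → ℕ → MvPolynomial (Fin n) ℂ),
    (∀ k j, (P k j).IsHomogeneous j) ∧ (Summable fun k => s k ^ 2) ∧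
    (∀ k, ∀ z ∈ ball (0 : V n) 1,
      ‖∑ j ∈ Finset.Icc (2 ^ k) (K * 2 ^ k), eval z.ofLp (P k j)‖ ≤ s k) ∧
    ∀ z ∈ ball (0 : V n) 1,
      HasSum (fun k => ∑ j ∈ Finset.Icc (2 ^ k) (K * 2 ^ k), eval z.ofLp (P k j)) (f z - f 0)

/-- the ball algebra -/
def BallAlgebra (n : ℕ) : Set (V n → ℂ) :=
  {a | ContinuousOn a (closedBall 0 1) ∧ DifferentiableOn ℂ a (ball 0 1)}

/-- **Corona theorem for functions with square summable dyadic pieces and for the closed algebra
generated by them and the ball algebra.** -/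
theorem result (n N : ℕ) (f : Fin N → V n → ℂ) :
    ((∀ j, BH (f j)) → (∀ z ∈ ball (0 : V n) 1, ∃ j, f j z ≠ 0) →
      (∀ p : V n, ‖p‖ = 1 → ∃ (T : Finset (Fin N)) (c : ℝ), 0 < c ∧
        (∀ᶠ z in 𝓝[ball 0 1] p, c ≤ ∑ j ∈ T, ‖f j z‖) ∧
        ∀ ε : ℝ, 0 < ε → ∀ j ∈ T, ∃ v ∈ Algebra.adjoin ℂ {q : V n → ℂ | SqSum q},
            ∀ᶠ z in 𝓝[ball 0 1] p, ‖f j z - v z‖ ≤ ε) →
      ∃ g : Fin N → V n → ℂ, (∀ j, BH (g j)) ∧
        ∀ z ∈ ball (0 : V n) 1, ∑ j, f j z * g j z = 1) ∧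
    (∀ δ : ℝ, 0 < δ → (∀ j, DifferentiableOn ℂ (f j) (ball 0 1)) →
      (∀ j, ∀ ε : ℝ, 0 < ε →
        ∃ v ∈ Algebra.adjoin ℂ (BallAlgebra n ∪ {q : V n → ℂ | SqSum q}),
          ∀ z ∈ ball (0 : V n) 1, ‖f j z - v z‖ ≤ ε) →
      (∀ z ∈ ball (0 : V n) 1, δ ≤ ∑ j, ‖f j z‖) →
      ∃ g : Fin N → V n → ℂ, (∀ j, BH (g j)) ∧
        ∀ z ∈ ball (0 : V n) 1, ∑ j, f j z * g j z = 1) :=
  ⟨fun hf h0 hloc => Pool.Agent.K9h23.Din.criterion2 f hf h0 hloc,
    fun δ hδ hfd hf hlow => Pool.Agent.K9h23.Din.closed2 f δ hfd hf hδ hlow⟩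

end Pool.Agent.Results.MP_ca0fc2_an.SquareSummable
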