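import Mathlib
import Pool.Agent.Helper47.Cor.Fin
import Pool.Agent.Helper47.Cor.Smooth2

/-!
# The corona problem on the unit ball is local with respect to a large closed algebra

`B` is the unit ball of `ℂ^m`. `T` is the uniformly closed algebra of functions on `B` generated by
the following bounded holomorphic functions:
* the ball algebra;
* all `h ∘ ψ`, where `h` is bounded and holomorphic on the unit disc and `ψ : B → 𝔻` has affine
  fibres (for instance, a linear fractional map), or is of class `C²` up to the boundary with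
  nondegenerate contact at the boundary points with `|ψ| = 1`;
* the functions which oscillate little on the Whitney cells;
* the functions `u` which have levels: for every boundary point `p` and every `ε > 0`, `u` is
  approximated within `ε` at some level `k` at `p`. Level `0`: near `p` it is within `ε` of a
  polynomial in functions `h ∘ ψ`, `ψ` with affine fibres. Level `k + 1`: for every unit vector `q`
  orthogonal to `p`, the family of the functions `u ∘ mv p a`, `a → 1`, which describes `u` on the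
  Whitney cells at `p`, is approximated at level `k` at `q`, with uniform complexity.

Theorem. Let `u_l` (`l` in any set) be in `T`, and let `f_1, …, f_N` be arbitrary bounded holomorphic
functions on `B`. If around every `c` there is a small polyhedron `{|u_l - c_l| < ε, l ∈ F}` on which
either `∑ f_j g_j = 1` has a bounded solution, or some of the `f_j` are bounded from below together
and belong there to the closed algebra generated by `T` and one arbitrary `G ∈ H^∞(B)`, which may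
depend on the polyhedron, then `∑ f_j g_j = 1` has a bounded solution on `B`. Examples: data in the
closed algebra generated by `T` and one arbitrary function; `u (1 - u), u G_1, (1 - u) G_2` with
`u ∈ T` and arbitrary `G_1, G_2`.

Proof. A character `χ` of the Banach algebra of bounded families of bounded holomorphic functions
which annihilates the data determines the values `c = χ(u)`; by the localisation theorem for
functions with affine fibres of the starting library (`Pool.Agent.Y263.GF.loc_aff`) the data and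
the functions `u_l - c_l` generate the algebra, first near points where the `u_l` are at level `0`,
then, by the Whitney localisation of the starting library (`Pool.Agent.TH310.Cor.whit2`), in general.
-/

set_option autoImplicit false

open Metric Set Filter Topology

namespace Pool.Agent.Results.MP_ca0fc2_an.TameLocality

/-- `ℂ^m` with the Euclidean norm. -/
abbrev V (m : ℕ) := EuclideanSpace ℂ (Fin m)

/-- The equation `∑ f_j g_j = 1` has a solution with `g_j` holomorphic on `Ω` and bounded by `C`. -/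
def Solvable {m N : ℕ} (Ω : Set (V m)) (f : Fin N → V m → ℂ) (C : ℝ) : Prop :=
  ∃ g : Fin N → V m → ℂ, (∀ j, DifferentiableOn ℂ (g j) Ω) ∧ (∀ j, ∀ z ∈ Ω, ‖g j z‖ ≤ C) ∧
    ∀ z ∈ Ω, ∑ j, f j z * g j z = 1

/-- Bounded holomorphic functions on the unit ball of `E`. -/
def BddHol {E : Type} [NormedAddCommGroup E] [NormedSpace ℂ E] (f : E → ℂ) : Prop :=
  DifferentiableOn ℂ f (ball 0 1) ∧ ∃ R : ℝ, ∀ z ∈ ball (0 : E) 1, ‖f z‖ ≤ R

/-- `ψ` is a holomorphic map from the unit ball to the unit disc, and the fibre of `ψ` through any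
point `z` is the part in the ball of the affine subspace `z + ker ψ'(z)`. -/
def HasAffineFibres {m : ℕ} (ψ : V m → ℂ) : Prop :=
  DifferentiableOn ℂ ψ (ball 0 1) ∧ (∀ z ∈ ball (0 : V m) 1, ‖ψ z‖ < 1) ∧
    ∀ z ∈ ball (0 : V m) 1, ∀ z' ∈ ball (0 : V m) 1, ψ z' = ψ z ↔ fderiv ℂ ψ z (z' - z) = 0

/-- The automorphisms of the ball (`‖p‖ = 1`, `|a| < 1`) which translate the complex geodesic
through `0` and `p`: `⟨p, mv p a z⟩ = (⟨p, z⟩ + a) / (1 + conj a ⟨p, z⟩)`. The sets
`mv p a (B ∩ ball q ρ)`, `q` a unit vector orthogonal to `p`, are the Whitney cells; those near `p`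
have `a` near `1`. -/
noncomputable def mv {m : ℕ} (p : V m) (a : ℂ) (z : V m) : V m :=
  (1 / (1 + starRingEnd ℂ a * inner ℂ p z)) •
    (((inner ℂ p z : ℂ) + a) • p + ((√(1 - ‖a‖ ^ 2) : ℝ) : ℂ) • (z - (inner ℂ p z : ℂ) • p))

/-- The points of the unit disc at distance less than `κ` from `1`. -/
abbrev Par (κ : ℝ) : Type := {a : ℂ // a ∈ ball (0 : ℂ) 1 ∧ ‖1 - a‖ < κ}

/-- The family `u_i`, `i ∈ I`, is approximated within `ε` at level `k` at the boundary point `p`. -/
def Approx {m : ℕ} (ε : ℝ) : ℕ → (I : Type) → (p : V m) → (I → V m → ℂ) → Prop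
  | 0, I, p, u => ∃ (ρ : ℝ) (K : ℕ) (P : MvPolynomial (Fin K) ℂ) (h : Fin K → I → ℂ → ℂ)
      (ψ : Fin K → I → V m → ℂ), 0 < ρ ∧
      (∀ k i, DifferentiableOn ℂ (h k i) (ball 0 1) ∧ ∀ w ∈ ball (0 : ℂ) 1, ‖h k i w‖ ≤ 1) ∧
      (∀ k i, HasAffineFibres (ψ k i)) ∧
      ∀ i, ∀ z ∈ ball (0 : V m) 1, ‖z - p‖ < ρ →
        ‖u i z - MvPolynomial.eval (fun k => h k i (ψ k i z)) P‖ ≤ ε
  | k + 1, I, p, u => ∀ q : V m, ‖q‖ = 1 → (inner ℂ p q : ℂ) = 0 → ∃ κ : ℝ, 0 < κ ∧
      Approx ε k (I × Par κ) q (fun x z => u x.1 (mv p x.2 z))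

/-- `u` has levels: at every boundary point it is approximated within every `ε > 0` at some
level. -/
def HasLevels {m : ℕ} (u : V m → ℂ) : Prop :=
  ∀ p : V m, ‖p‖ = 1 → ∀ ε : ℝ, 0 < ε → ∃ k, Approx ε k Unit p (fun _ => u)

theorem aff_iff {m : ℕ} (ψ : V m → ℂ) : HasAffineFibres ψ ↔ Pool.Agent.Y263.GF.AD ψ :=
  ⟨fun h => ⟨⟨h.1, h.2.2⟩, h.2.1⟩, fun h => ⟨h.1.diff, h.2, h.1.fib⟩⟩

theorem approx_iff {m : ℕ} (ε : ℝ) (k : ℕ) : ∀ (I : Type) (p : V m) (u : I → V m → ℂ),
    Approx ε k I p u ↔ Pool.Agent.Helper47.Cor.Apx ε k I p u := by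
  induction k with
  | zero =>
    intro I p u
    constructor
    · rintro ⟨ρ, K, P, h, ψ, h0, h1, h2, h3⟩
      exact ⟨ρ, K, P, h, ψ, h0, h1, fun k i => (aff_iff _).1 (h2 k i), h3⟩
    · rintro ⟨ρ, K, P, h, ψ, h0, h1, h2, h3⟩
      exact ⟨ρ, K, P, h, ψ, h0, h1, fun k i => (aff_iff _).2 (h2 k i), h3⟩
  | succ k ih =>
    intro I p u
    constructor
    · intro h q hq hpq
      obtain ⟨κ, hκ, h1⟩ := h q hq hpq
      exact ⟨κ, hκ, (ih _ _ _).1 h1⟩
    · intro h q hq hpq
      obtain ⟨κ, hκ, h1⟩ := h q hq hpq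
      exact ⟨κ, hκ, (ih _ _ _).2 h1⟩

theorem lev_iff {m : ℕ} (u : V m → ℂ) : BddHol u ∧ HasLevels u ↔ Pool.Agent.Helper47.Cor.Tm u := by
  constructor
  · rintro ⟨⟨h1, h2⟩, h3⟩
    refine ⟨h1, h2, fun p hp ε hε => ?_⟩
    obtain ⟨k, hk⟩ := h3 p hp ε hε
    exact ⟨k, (approx_iff _ _ _ _ _).1 hk⟩
  · rintro ⟨h1, h2, h3⟩
    refine ⟨⟨h1, h2⟩, fun p hp ε hε => ?_⟩
    obtain ⟨k, hk⟩ := h3 p hp ε hε
    exact ⟨k, (approx_iff _ _ _ _ _).2 hk⟩

/-- `ψ : B → 𝔻` is holomorphic, of class `C²` up to the sphere, and `c ‖z - p‖² ≤ 1 - |ψ(z)|` near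
every point `p` of the sphere with `|ψ(p)| = 1`. -/
def Contact {m : ℕ} (ψ : V m → ℂ) : Prop :=
  DifferentiableOn ℂ ψ (ball 0 1) ∧ (∀ z ∈ ball (0 : V m) 1, ‖ψ z‖ < 1) ∧
    (∀ p : V m, ‖p‖ = 1 → ContDiffAt ℝ 2 ψ p) ∧
    ∀ p : V m, ‖p‖ = 1 → ‖ψ p‖ = 1 → ∃ c : ℝ, 0 < c ∧
      ∀ᶠ z in 𝓝[ball (0 : V m) 1] p, c * ‖z - p‖ ^ 2 ≤ 1 - ‖ψ z‖

/-- `u` oscillates little on the small Whitney cells. -/
def SmallOscillation {m : ℕ} (u : V m → ℂ) : Prop :=
  ∀ p : V m, ‖p‖ = 1 → ∀ q : V m, ‖q‖ = 1 → (inner ℂ p q : ℂ) = 0 → ∀ ε : ℝ, 0 < ε →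
    ∃ κ : ℝ, 0 < κ ∧ ∀ a ∈ ball (0 : ℂ) 1, ‖1 - a‖ < κ → ∀ z ∈ ball (0 : V m) 1,
      ∀ w ∈ ball (0 : V m) 1, ‖z - q‖ < κ → ‖w - q‖ < κ → ‖u (mv p a z) - u (mv p a w)‖ ≤ ε

/-- The generators of the algebra `T`: the bounded holomorphic functions on the ball which are
continuous up to the boundary, or of the form `h ∘ ψ`, `h` bounded and holomorphic on the disc, `ψ`
with affine fibres or with nondegenerate contact, or of small oscillation, or which have levels. -/
def Basic {m : ℕ} (u : V m → ℂ) : Prop :=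
  BddHol u ∧ (ContinuousOn u (closedBall 0 1) ∨
    (∃ (h : ℂ → ℂ) (ψ : V m → ℂ), BddHol h ∧ (HasAffineFibres ψ ∨ Contact ψ) ∧
      ∀ z ∈ ball (0 : V m) 1, u z = h (ψ z)) ∨ SmallOscillation u ∨ HasLevels u)

/-- `u` is in `T`: a holomorphic function on the ball which is a uniform limit of elements of the
algebra generated by the basic functions. -/
def Tame {m : ℕ} (u : V m → ℂ) : Prop :=
  DifferentiableOn ℂ u (ball 0 1) ∧ ∀ η : ℝ, 0 < η → ∃ v ∈ Algebra.adjoin ℂ {v : V m → ℂ | Basic v},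
    ∀ z ∈ ball (0 : V m) 1, ‖u z - v z‖ ≤ η

theorem basic_tm {m : ℕ} {u : V m → ℂ} (h : Basic u) : Pool.Agent.Helper47.Cor.Tm u := by
  obtain ⟨⟨h1, h2⟩, h3 | ⟨g, ψ, hg, hψ, h3⟩ | h3 | h3⟩ := h
  · exact Pool.Agent.Helper47.Cor.Tm.cont h1 h3
  · refine Pool.Agent.Helper47.Cor.Tm.lim h1 fun η hη => ⟨fun z => g (ψ z), ?_, fun z hz => ?_⟩
    · rcases hψ with hψ | ⟨k1, k2, k3, k4⟩
      · exact Pool.Agent.Helper47.Cor.Tm.comp hg.1 hg.2 ((aff_iff ψ).1 hψ)
      · exact Pool.Agent.Helper47.Cor.Tm.smooth k1 k2 k3 k4 hg.1 hg.2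
    · rw [h3 z hz, sub_self, norm_zero]
      exact hη.le
  · exact Pool.Agent.Helper47.Cor.Tm.cells h1 h2 h3
  · exact (lev_iff u).1 ⟨⟨h1, h2⟩, h3⟩

theorem adjoin_tm {m : ℕ} {v : V m → ℂ} (h : v ∈ Algebra.adjoin ℂ {v : V m → ℂ | Basic v}) :
    Pool.Agent.Helper47.Cor.Tm v := by
  induction h using Algebra.adjoin_induction with
  | mem x hx => exact basic_tm hx
  | algebraMap r =>
    refine Pool.Agent.Helper47.Cor.Tm.cont ?_ ?_
    · exact differentiableOn_const _
    · exact continuousOn_const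
  | add x y _ _ hx hy => exact hx.add hy
  | mul x y _ _ hx hy => exact hx.mul hy

theorem tame_tm {m : ℕ} {u : V m → ℂ} (h : Tame u) : Pool.Agent.Helper47.Cor.Tm u := by
  refine Pool.Agent.Helper47.Cor.Tm.lim h.1 fun η hη => ?_
  obtain ⟨v, hv, h1⟩ := h.2 η hη
  exact ⟨v, adjoin_tm hv, h1⟩

/-- The polyhedron `{z ∈ B : |u_l(z) - c_l| < ε, l ∈ F}`. -/
def Poly {m : ℕ} {Λ : Type} (u : Λ → V m → ℂ) (F : Finset Λ) (c : Λ → ℂ) (ε : ℝ) : Set (V m) :=
  {z | z ∈ ball (0 : V m) 1 ∧ ∀ l ∈ F, ‖u l z - c l‖ < ε}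

/-- On `W`, some of the `f_j` are bounded from below together and are uniform limits of elements of
the algebra generated by the basic functions and one bounded holomorphic function `G`. -/
def OneFunction {m N : ℕ} (W : Set (V m)) (f : Fin N → V m → ℂ) : Prop :=
  ∃ (G : V m → ℂ) (S : Finset (Fin N)) (δ : ℝ), BddHol G ∧ 0 < δ ∧
    (∀ z ∈ W, δ ≤ ∑ j ∈ S, ‖f j z‖) ∧
    ∀ j ∈ S, ∀ η : ℝ, 0 < η → ∃ v ∈ Algebra.adjoin ℂ (insert G {v : V m → ℂ | Basic v}),
      ∀ z ∈ W, ‖f j z - v z‖ ≤ η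

/-- **The corona problem on the ball is local with respect to the closed algebra `T`.** -/
theorem result (m : ℕ) (Λ : Type) (u : Λ → V m → ℂ) (hu : ∀ l, Tame (u l)) (N : ℕ)
    (f : Fin N → V m → ℂ) (hf : ∀ j, BddHol (f j))
    (h : ∀ c : Λ → ℂ, ∃ (F : Finset Λ) (ε : ℝ), 0 < ε ∧
      ((∃ Q : ℝ, Solvable (Poly u F c ε) f Q) ∨ OneFunction (Poly u F c ε) f)) :
    ∃ C : ℝ, Solvable (ball 0 1) f C := by
  choose hfd R hR using hf
  obtain ⟨S, hS0, hS⟩ : ∃ S : ℝ, 0 < S ∧ ∀ j, R j ≤ S := by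
    have e1 : 0 ≤ ∑ j, |R j| := Finset.sum_nonneg fun _ _ => abs_nonneg _
    refine ⟨1 + ∑ j, |R j|, by linarith, fun j => ?_⟩
    have h1 := Finset.single_le_sum (f := fun j => |R j|) (fun _ _ => abs_nonneg _)
      (Finset.mem_univ j)
    have h2 := le_abs_self (R j)
    linarith
  have hSc : (S : ℂ) ≠ 0 := by exact_mod_cast hS0.ne'
  have hSn : ‖(S : ℂ)‖ = S := by rw [Complex.norm_real, Real.norm_of_nonneg hS0.le]
  have hset : ∀ G : V m → ℂ, Algebra.adjoin ℂ (insert G {v : V m → ℂ | Basic v}) ≤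
      Algebra.adjoin ℂ (insert G {v | Pool.Agent.Helper47.Cor.Tm v}) := fun G =>
    Algebra.adjoin_mono (Set.insert_subset_insert fun v hv => basic_tm hv)
  obtain ⟨C, g, g1, g2, g3⟩ := Pool.Agent.Helper47.Cor.thm_bad u
    (fun l => tame_tm (hu l))
    (fun j z => f j z / S) (fun j => ⟨Pool.Agent.Y263.GF.ddiv (hfd j) _, fun z hz => by
      rw [norm_div, hSn, div_le_one hS0]
      exact (hR j z hz).trans (hS j)⟩)
    (fun c => by
      obtain ⟨F, ε, hε, ⟨Q, g, g1, g2, g3⟩ | ⟨G, S', δ, h2, hδ, hlow, h3⟩⟩ := h c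
      · refine ⟨F, ε, hε, Or.inl ⟨S * Q, fun j z => S * g j z, fun j => (g1 j).const_mul _,
          fun j z hz => ?_, fun z hz => ?_⟩⟩
        · rw [norm_mul, hSn]
          have := g2 j z hz
          gcongr
        · rw [← g3 z hz]
          refine Finset.sum_congr rfl fun j _ => ?_
          field_simp
      · refine ⟨F, ε, hε, Or.inr ⟨G, S', δ / S, by positivity, h2.1, h2.2, fun z hz hl => ?_,
          fun j hj η hη => ?_⟩⟩
        · have h1 := hlow z ⟨hz, hl⟩
          simp only [norm_div, hSn]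
          rw [← Finset.sum_div]
          gcongr
        · obtain ⟨v, hv, hfv⟩ := h3 j hj (S * η) (by positivity)
          replace hv := hset G hv
          refine ⟨(S : ℂ)⁻¹ • v, Subalgebra.smul_mem _ hv _, fun z hz hl => ?_⟩
          have h4 := hfv z ⟨hz, hl⟩
          have h5 : f j z / S - ((S : ℂ)⁻¹ • v) z = (f j z - v z) / S := by
            rw [Pi.smul_apply, smul_eq_mul]
            field_simp
          rw [h5, norm_div, hSn, div_le_iff₀ hS0]
          linarith)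
  refine ⟨C / S, fun j z => g j z / S, fun j => Pool.Agent.Y263.GF.ddiv (g1 j) _,
    fun j z hz => ?_, fun z hz => ?_⟩
  · rw [norm_div, hSn]
    have := g2 j z hz
    gcongr
  · rw [← g3 z hz]
    refine Finset.sum_congr rfl fun j _ => ?_
    field_simp

end Pool.Agent.Results.MP_ca0fc2_an.TameLocality
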